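import Pool.Agent.H14.AVS.S2

/-!
# AVS, module LTO: the lattice of a point of the covering
-/

set_option autoImplicit false

namespace Pool.Agent.H70.AVS

open Polynomial Matrix Pool.AVR Pool.AVS

section Field

variable {L : Type} [Field L]

/-- Lower unipotent elements. -/
def lun (s : L) : Matrix (Fin 3) (Fin 3) L := !![1, 0, 0; s, 1, 0; -s ^ 2 / 2, -s, 1]

/-- The Weyl element. -/
def wey (L : Type) [Field L] : Matrix (Fin 3) (Fin 3) L := !![0, 0, 1; 0, -1, 0; 1, 0, 0]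

/-- Elements of the Borel subgroup. -/
def bor (μ σ : L) : Matrix (Fin 3) (Fin 3) L :=
  !![μ, σ, -σ ^ 2 / (2 * μ); 0, 1, -σ / μ; 0, 0, μ⁻¹]

/-- A symmetric matrix. -/
def sy (p q r s t u : L) : Matrix (Fin 3) (Fin 3) L := !![p, q, r; q, s, t; r, t, u]

lemma eq_sy {B : Matrix (Fin 3) (Fin 3) L} (h : Bᵀ = B) :
    B = sy (B 0 0) (B 0 1) (B 0 2) (B 1 1) (B 1 2) (B 2 2) := by
  have h1 : B 1 0 = B 0 1 := by
    have := congrFun (congrFun h 0) 1
    simpa [Matrix.transpose_apply] using this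
  have h2 : B 2 0 = B 0 2 := by
    have := congrFun (congrFun h 0) 2
    simpa [Matrix.transpose_apply] using this
  have h3 : B 2 1 = B 1 2 := by
    have := congrFun (congrFun h 1) 2
    simpa [Matrix.transpose_apply] using this
  ext i j
  fin_cases i <;> fin_cases j <;> simp [sy, h1, h2, h3]

lemma lun_orth (h2 : (2 : L) ≠ 0) (s : L) : (lun s)ᵀ * AA L * lun s = AA L := by
  ext i j
  fin_cases i <;> fin_cases j <;>
    simp [lun, AA, Matrix.mul_apply, Fin.sum_univ_succ] <;> field_simp <;> ring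

lemma lun_det (s : L) : (lun s).det = 1 := by
  simp [lun, Matrix.det_fin_three]

lemma wey_orth : (wey L)ᵀ * AA L * wey L = AA L := by
  ext i j
  fin_cases i <;> fin_cases j <;>
    simp [wey, AA, Matrix.mul_apply, Fin.sum_univ_succ]

lemma wey_det : (wey L).det = 1 := by
  simp [wey, Matrix.det_fin_three]

lemma bor_orth (h2 : (2 : L) ≠ 0) {μ : L} (hμ : μ ≠ 0) (σ : L) :
    (bor μ σ)ᵀ * AA L * bor μ σ = AA L := by
  ext i j
  fin_cases i <;> fin_cases j <;>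
    simp [bor, AA, Matrix.mul_apply, Fin.sum_univ_succ, hμ] <;> field_simp <;> ring

lemma bor_det {μ : L} (hμ : μ ≠ 0) (σ : L) : (bor μ σ).det = 1 := by
  simp [bor, Matrix.det_fin_three, hμ]

lemma ic_inv {B g : Matrix (Fin 3) (Fin 3) L} (hg : g.det = 1) : ic (gᵀ * B * g) = ic B := by
  simp [ic, Matrix.det_mul, Matrix.det_transpose, hg]

lemma lun_inv (h2 : (2 : L) ≠ 0) (s : L) {B : Matrix (Fin 3) (Fin 3) L} (hB : Bᵀ = B) :
    ia ((lun s)ᵀ * B * lun s) = ia B ∧ ib ((lun s)ᵀ * B * lun s) = ib B := by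
  rw [eq_sy hB]
  generalize B 0 0 = p
  generalize B 0 1 = q
  generalize B 0 2 = r
  generalize B 1 1 = s'
  generalize B 1 2 = t
  generalize B 2 2 = u
  constructor <;>
    simp [ia, ib, lun, sy, Matrix.mul_apply, Fin.sum_univ_succ] <;> field_simp <;> ring

lemma wey_inv {B : Matrix (Fin 3) (Fin 3) L} (hB : Bᵀ = B) :
    ia ((wey L)ᵀ * B * wey L) = ia B ∧ ib ((wey L)ᵀ * B * wey L) = ib B := by
  rw [eq_sy hB]
  constructor <;>
    simp [ia, ib, wey, sy, Matrix.mul_apply, Fin.sum_univ_succ] <;> ring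

lemma bor_inv (h2 : (2 : L) ≠ 0) {μ : L} (hμ : μ ≠ 0) (σ : L) {B : Matrix (Fin 3) (Fin 3) L}
    (hB : Bᵀ = B) :
    ia ((bor μ σ)ᵀ * B * bor μ σ) = ia B ∧ ib ((bor μ σ)ᵀ * B * bor μ σ) = ib B := by
  rw [eq_sy hB]
  generalize B 0 0 = p
  generalize B 0 1 = q
  generalize B 0 2 = r
  generalize B 1 1 = s'
  generalize B 1 2 = t
  generalize B 2 2 = u
  constructor <;>
    simp [ia, ib, bor, sy, Matrix.mul_apply, Fin.sum_univ_succ] <;> field_simp <;> ring

lemma symm_conj {B g : Matrix (Fin 3) (Fin 3) L} (hB : Bᵀ = B) : (gᵀ * B * g)ᵀ = gᵀ * B * g := by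
  rw [Matrix.transpose_mul, Matrix.transpose_mul, Matrix.transpose_transpose, hB,
    Matrix.mul_assoc]

/-- The invariance, packaged. -/
def Good (B : Matrix (Fin 3) (Fin 3) L) (g : Matrix (Fin 3) (Fin 3) L) : Prop :=
  gᵀ * AA L * g = AA L ∧ g.det = 1 ∧ ia (gᵀ * B * g) = ia B ∧ ib (gᵀ * B * g) = ib B ∧
    ic (gᵀ * B * g) = ic B

lemma Good.mul {B g g' : Matrix (Fin 3) (Fin 3) L} (h : Good B g) (h' : Good (gᵀ * B * g) g') :
    Good B (g * g') := by
  obtain ⟨h1, h2, h3, h4, h5⟩ := h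
  obtain ⟨k1, k2, k3, k4, k5⟩ := h'
  have e : ∀ M : Matrix (Fin 3) (Fin 3) L, (g * g')ᵀ * M * (g * g') = g'ᵀ * (gᵀ * M * g) * g' := by
    intro M
    rw [Matrix.transpose_mul]
    simp only [Matrix.mul_assoc]
  refine ⟨?_, ?_, ?_, ?_, ?_⟩
  · rw [e, h1, k1]
  · rw [Matrix.det_mul, h2, k2, one_mul]
  · rw [e, k3, h3]
  · rw [e, k4, h4]
  · rw [e, k5, h5]

/-- Transitivity on isotropic vectors. -/
lemma trans_iso (h2 : (2 : L) ≠ 0) {B : Matrix (Fin 3) (Fin 3) L} (hB : Bᵀ = B) {z : Fin 3 → L}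
    (hz : z ≠ 0) (hi : bil (AA L) z z = 0) :
    ∃ (g : Matrix (Fin 3) (Fin 3) L) (t : L), Good B g ∧ t ≠ 0 ∧ g *ᵥ ![1, 0, 0] = t • z := by
  have hq : 2 * z 0 * z 2 + z 1 ^ 2 = 0 := by
    simp [bil, AA, Matrix.mulVec, dotProduct, Fin.sum_univ_succ] at hi
    linear_combination hi
  by_cases h0 : z 0 = 0
  · have h1 : z 1 = 0 := by
      rw [h0] at hq
      simpa using hq
    have h2' : z 2 ≠ 0 := by
      intro h
      apply hz
      ext i
      fin_cases i <;> simp [h0, h1, h]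
    refine ⟨wey L, (z 2)⁻¹, ⟨wey_orth, wey_det, (wey_inv hB).1, (wey_inv hB).2,
      ic_inv wey_det⟩, inv_ne_zero h2', ?_⟩
    ext i
    fin_cases i <;> simp [wey, Matrix.mulVec, dotProduct, Fin.sum_univ_succ, h0, h1, h2']
  · refine ⟨lun (z 1 / z 0), (z 0)⁻¹, ⟨lun_orth h2 _, lun_det _, (lun_inv h2 _ hB).1,
      (lun_inv h2 _ hB).2, ic_inv (lun_det _)⟩, inv_ne_zero h0, ?_⟩
    ext i
    fin_cases i
    · simp [lun, Matrix.mulVec, dotProduct, Fin.sum_univ_succ, h0]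
    · simp [lun, Matrix.mulVec, dotProduct, Fin.sum_univ_succ]
      field_simp
    · simp [lun, Matrix.mulVec, dotProduct, Fin.sum_univ_succ]
      field_simp
      linear_combination -hq

lemma good_bor (h2 : (2 : L) ≠ 0) {μ : L} (hμ : μ ≠ 0) (σ : L) {B : Matrix (Fin 3) (Fin 3) L}
    (hB : Bᵀ = B) : Good B (bor μ σ) :=
  ⟨bor_orth h2 hμ σ, bor_det hμ σ, (bor_inv h2 hμ σ hB).1, (bor_inv h2 hμ σ hB).2,
    ic_inv (bor_det hμ σ)⟩

lemma bor_e0 (μ σ : L) (t : L) : bor μ σ *ᵥ (t • ![1, 0, 0]) = (t * μ) • ![1, 0, 0] := by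
  ext i
  fin_cases i <;> simp [bor, Matrix.mulVec, dotProduct, Fin.sum_univ_succ, mul_comm]

/-- Normal form: the matrix of a point. -/
lemma normal (h2 : (2 : L) ≠ 0) {B : Matrix (Fin 3) (Fin 3) L} (hB : Bᵀ = B) {z : Fin 3 → L}
    {w : L} (hc : Cov B z w) (hw : w ≠ 0) :
    ∃ (g : Matrix (Fin 3) (Fin 3) L) (μ x y : L), Good B g ∧ g *ᵥ ![1, 0, 0] = μ • z ∧
      μ * w = 1 ∧ gᵀ * B * g = BP (ia B) (ib B) x y ∧ OnC (ia B) (ib B) (ic B) x y := by
  obtain ⟨hz, hi, hwz⟩ := hc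
  obtain ⟨g, t, hg, ht, hgz⟩ := trans_iso h2 hB hz hi
  set B0 := gᵀ * B * g with hB0
  have hB0s : B0ᵀ = B0 := symm_conj hB
  set w0 := t * w with hw0
  have hw0' : w0 ≠ 0 := mul_ne_zero ht hw
  have h00 : B0 0 0 = -w0 ^ 2 := by
    have e1 : B0 0 0 = ![1, 0, 0] ⬝ᵥ (B0 *ᵥ ![1, 0, 0]) := by
      simp [Matrix.mulVec, dotProduct, Fin.sum_univ_succ]
    have e2 : ![1, 0, 0] ⬝ᵥ (B0 *ᵥ ![1, 0, 0]) =
        (g *ᵥ ![1, 0, 0]) ⬝ᵥ (B *ᵥ (g *ᵥ ![1, 0, 0])) := by
      rw [hB0, ← Matrix.mulVec_mulVec, ← Matrix.mulVec_mulVec, Matrix.dotProduct_mulVec,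
        Matrix.vecMul_transpose]
    rw [e1, e2, hgz, Matrix.mulVec_smul, smul_dotProduct, dotProduct_smul]
    have e3 : z ⬝ᵥ (B *ᵥ z) = -w ^ 2 := by
      unfold bil at hwz
      rw [hwz]; ring
    rw [e3, hw0]
    simp only [smul_eq_mul]
    ring
  set σ := B0 0 1 / w0 ^ 2 with hσ
  have hgb := good_bor h2 (inv_ne_zero hw0') σ hB0s
  have hgg := hg.mul hgb
  set G := g * bor w0⁻¹ σ with hG
  have hGB : Gᵀ * B * G = (bor w0⁻¹ σ)ᵀ * B0 * bor w0⁻¹ σ := by
    rw [hG, hB0, Matrix.transpose_mul]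
    simp only [Matrix.mul_assoc]
  set B1 := Gᵀ * B * G with hB1
  have hB1s : B1ᵀ = B1 := symm_conj hB
  have k00 : B1 0 0 = -1 := by
    rw [hGB, eq_sy hB0s, h00]
    simp [bor, sy, Matrix.mul_apply, Fin.sum_univ_succ]
    field_simp
  have k01 : B1 0 1 = 0 := by
    rw [hGB, eq_sy hB0s, h00]
    simp [bor, sy, Matrix.mul_apply, Fin.sum_univ_succ, hσ]
    field_simp
    ring
  obtain ⟨g1, g2, g3, g4, g5⟩ := hgg
  refine ⟨G, t * w0⁻¹ * 1, B1 1 1, -B1 1 2, ⟨g1, g2, g3, g4, g5⟩, ?_, ?_, ?_, ?_⟩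
  · rw [hG, ← Matrix.mulVec_mulVec]
    have : bor w0⁻¹ σ *ᵥ ![1, 0, 0] = w0⁻¹ • ![1, 0, 0] := by
      have := bor_e0 w0⁻¹ σ 1
      simpa using this
    rw [this, Matrix.mulVec_smul, hgz, smul_smul]
    congr 1
    ring
  · rw [hw0]
    field_simp
  · -- B1 = BP
    have ha : ia B1 = ia B := g3
    have hb : ib B1 = ib B := g4
    have q02 : B1 0 2 = -(ia B + B1 1 1) / 2 := by
      rw [← ha]
      simp only [ia]
      field_simp
      ring
    have q22 : B1 2 2 = ib B + (ia B + B1 1 1) * B1 1 1 - (ia B + B1 1 1) ^ 2 / 4 := by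
      have h4 : (4 : L) ≠ 0 := by
        have : (4 : L) = 2 * 2 := by norm_num
        rw [this]; exact mul_ne_zero h2 h2
      have e : ib B1 = 2 * B1 0 2 * B1 1 1 + B1 0 2 ^ 2 + B1 2 2 := by
        simp only [ib, k00, k01]; ring
      rw [hb] at e
      rw [q02] at e
      have e' : B1 2 2 = ib B - 2 * (-(ia B + B1 1 1) / 2) * B1 1 1
          - (-(ia B + B1 1 1) / 2) ^ 2 := by linear_combination -e
      rw [e']
      field_simp
      ring
    have e := eq_sy hB1s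
    have e' : sy (B1 0 0) (B1 0 1) (B1 0 2) (B1 1 1) (B1 1 2) (B1 2 2) =
        BP (ia B) (ib B) (B1 1 1) (-B1 1 2) := by
      rw [k00, k01, q02, q22]
      ext i j
      fin_cases i <;> fin_cases j <;> simp [sy, BP]
    exact e.trans e'
  · -- on the curve
    have ha : ia B1 = ia B := g3
    have hb : ib B1 = ib B := g4
    have hcc : ic B1 = ic B := g5
    have h4 : (4 : L) ≠ 0 := by
      have : (4 : L) = 2 * 2 := by norm_num
      rw [this]; exact mul_ne_zero h2 h2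
    have e1 : ia B1 = -(2 * B1 0 2 + B1 1 1) := rfl
    have e2 : ib B1 = 2 * B1 0 2 * B1 1 1 + B1 0 2 ^ 2 + B1 2 2 := by
      simp only [ib, k00, k01]; ring
    have s10 : B1 1 0 = 0 := by
      have := congrFun (congrFun hB1s 0) 1
      rw [Matrix.transpose_apply] at this
      rw [this, k01]
    have s20 : B1 2 0 = B1 0 2 := by
      have := congrFun (congrFun hB1s 0) 2
      simpa [Matrix.transpose_apply] using this
    have s21 : B1 2 1 = B1 1 2 := by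
      have := congrFun (congrFun hB1s 1) 2
      simpa [Matrix.transpose_apply] using this
    have e3 : ic B1 = -(B1 1 1 * B1 2 2) + B1 1 2 ^ 2 - B1 0 2 ^ 2 * B1 1 1 := by
      simp only [ic, Matrix.det_fin_three, k00, k01, s10, s20, s21]; ring
    unfold OnC
    rw [← ha, ← hb, ← hcc, e1, e2, e3]
    ring

/-- The second step. -/
lemma step2 (h2 : (2 : L) ≠ 0) {p : L} (hp : p ≠ 0) {u v : L} (hu : u ≠ 0) {a b c : L}
    (h : v ^ 2 = u ^ 3 + a * p ^ 2 * u ^ 2 + b * p ^ 4 * u + c * p ^ 6) :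
    (bor p (-(v / u) / p))ᵀ * BP a b (u / p ^ 2) (v / p ^ 3) * bor p (-(v / u) / p) =
      sy (-p ^ 2) (v / u) ((b * p ^ 2 / u + c * p ^ 4 / u ^ 2) / 2)
        (-(a + (b * p ^ 2 / u + c * p ^ 4 / u ^ 2))) (-(v / u) * (b / u + c * p ^ 2 / u ^ 2) / 2)
        (-c / u - p ^ 2 * ((b / u + c * p ^ 2 / u ^ 2) / 2) ^ 2) := by
  have h4 : (4 : L) ≠ 0 := by
    have : (4 : L) = 2 * 2 := by norm_num
    rw [this]; exact mul_ne_zero h2 h2
  have hc : c = (v ^ 2 - u ^ 3 - a * p ^ 2 * u ^ 2 - b * p ^ 4 * u) / p ^ 6 := by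
    field_simp
    linear_combination -h
  ext i j
  fin_cases i <;> fin_cases j <;>
    simp [bor, sy, BP, Matrix.mul_apply, Fin.sum_univ_succ, hc] <;> field_simp <;> ring

end Field

section Local

variable {L : Type} [Field L] {O : ValuationSubring L}

lemma two_mem (h : (2 : L)⁻¹ ∈ O) {x : L} (hx : x ∈ O) : x / 2 ∈ O := by
  rw [div_eq_mul_inv]
  exact O.mul_mem _ _ hx h

lemma mem_of_sq {x : L} (hx : x ^ 2 ∈ O) : x ∈ O := by
  rcases O.mem_or_inv_mem x with h | h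
  · exact h
  · have : x = x ^ 2 * x⁻¹ := by
      by_cases h0 : x = 0
      · simp [h0]
      · field_simp
    rw [this]
    exact O.mul_mem _ _ hx h

lemma mi_sy {p q r s t u : L} (hp : p ∈ O) (hq : q ∈ O) (hr : r ∈ O) (hs : s ∈ O) (ht : t ∈ O)
    (hu : u ∈ O) : MI (O : Set L) (sy p q r s t u) := by
  intro i j
  fin_cases i <;> fin_cases j <;> simpa [sy]

lemma pinv {π : L} (hL : Loc L O π) : π⁻¹ ∉ O := by
  have := (hL.unif π hL.pi_mem hL.pi_ne).2
  apply this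
  rw [div_self hL.pi_ne]
  exact O.one_mem

lemma zpow_mem_iff {π : L} (hL : Loc L O π) {k : ℤ} (h : π ^ k ∈ O) : 0 ≤ k := by
  by_contra hk
  push Not at hk
  apply pinv hL
  have e : π⁻¹ = π ^ k * π ^ (-k - 1).toNat := by
    rw [← zpow_natCast, ← zpow_add₀ hL.pi_ne, ← _root_.zpow_neg_one]
    congr 1
    omega
  rw [e]
  exact O.mul_mem _ _ h (pow_mem hL.pi_mem _)

lemma ui_mul {x y : L} (hx : UI (O : Set L) x) (hy : UI (O : Set L) y) :
    UI (O : Set L) (x * y) :=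
  ⟨mul_ne_zero hx.1 hy.1, O.mul_mem _ _ hx.2.1 hy.2.1, by
    rw [mul_inv]; exact O.mul_mem _ _ hx.2.2 hy.2.2⟩

lemma ui_inv {x : L} (hx : UI (O : Set L) x) : UI (O : Set L) x⁻¹ :=
  ⟨inv_ne_zero hx.1, hx.2.2, by rw [inv_inv]; exact hx.2.1⟩

lemma ui_div {x y : L} (hx : UI (O : Set L) x) (hy : UI (O : Set L) y) :
    UI (O : Set L) (x / y) := by
  rw [div_eq_mul_inv]; exact ui_mul hx (ui_inv hy)

lemma ui_pow {x : L} (hx : UI (O : Set L) x) (n : ℕ) : UI (O : Set L) (x ^ n) := by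
  induction n with
  | zero => exact ⟨by simp, by simpa using O.one_mem, by simpa using O.one_mem⟩
  | succ n ih => rw [pow_succ]; exact ui_mul ih hx

/-- One plus a nonunit is a unit. -/
lemma ui_one_add {π : L} (hL : Loc L O π) {s : L} (hs : s ∈ O) : UI (O : Set L) (1 + π * s) := by
  have hm : 1 + π * s ∈ O := O.add_mem _ _ O.one_mem (O.mul_mem _ _ hL.pi_mem hs)
  have key : ∀ r ∈ O, 1 + π * s ≠ π * r := by
    intro r hr h
    apply pinv hL
    have : π⁻¹ = r - s := by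
      have hp := hL.pi_ne
      field_simp
      linear_combination h
    rw [this]
    exact O.sub_mem hr hs
  have h0 : 1 + π * s ≠ 0 := by
    intro h
    exact key 0 O.zero_mem (by rw [h]; ring)
  refine ⟨h0, hm, ?_⟩
  by_contra hi
  have := (hL.unif _ hm h0).1 hi
  exact key _ this (by have hp := hL.pi_ne; field_simp)

/-- The valuations of the coordinates of a point with nonintegral `x`. -/
lemma val_point {π : L} (hL : Loc L O π) {a b c x y : L} (ha : a ∈ O) (hb : b ∈ O) (hc : c ∈ O)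
    (h : y ^ 2 = x ^ 3 + a * x ^ 2 + b * x + c) (hx : x ∉ O) :
    ∃ j : ℕ, UI (O : Set L) ((π ^ j) ^ 2 * x) ∧ UI (O : Set L) ((π ^ j) ^ 3 * y) := by
  have hp := hL.pi_ne
  have hx0 : x ≠ 0 := by
    intro h0; apply hx; rw [h0]; exact O.zero_mem
  have hxi : x⁻¹ ∈ O := by
    rcases O.mem_or_inv_mem x with h1 | h1
    · exact absurd h1 hx
    · exact h1
  have hr : x⁻¹ / π ∈ O := (hL.unif _ hxi (inv_ne_zero hx0)).1 (by rw [inv_inv]; exact hx)
  set r := x⁻¹ / π with hrd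
  have hxr : x⁻¹ = π * r := by rw [hrd]; field_simp
  set s := r * (a + b * x⁻¹ + c * x⁻¹ ^ 2) with hs
  have hsm : s ∈ O := O.mul_mem _ _ hr (O.add_mem _ _ (O.add_mem _ _ ha (O.mul_mem _ _ hb hxi))
    (O.mul_mem _ _ hc (pow_mem hxi 2)))
  have hy : y ^ 2 = x ^ 3 * (1 + π * s) := by
    rw [h]
    have : π * s = x⁻¹ * (a + b * x⁻¹ + c * x⁻¹ ^ 2) := by
      rw [hs, ← mul_assoc, ← hxr]
    rw [this]
    field_simp
    ring
  have hu1 := ui_one_add hL hsm
  have hy0 : y ≠ 0 := by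
    intro h0
    rw [h0] at hy
    have : x ^ 3 * (1 + π * s) ≠ 0 := mul_ne_zero (pow_ne_zero 3 hx0) hu1.1
    exact this (by rw [← hy]; ring)
  obtain ⟨n, hn1, hn2⟩ := hL.arch x hx0
  obtain ⟨m, hm1, hm2⟩ := hL.arch y hy0
  have hun : UI (O : Set L) (x / π ^ n) := ⟨div_ne_zero hx0 (zpow_ne_zero _ hp), hn1, hn2⟩
  have hum : UI (O : Set L) (y / π ^ m) := ⟨div_ne_zero hy0 (zpow_ne_zero _ hp), hm1, hm2⟩
  have e1 : UI (O : Set L) (π ^ (2 * m - 3 * n)) := by
    have e : π ^ (2 * m - 3 * n) = (1 + π * s) * (x / π ^ n) ^ 3 / (y / π ^ m) ^ 2 := by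
      rw [zpow_sub₀ hp, mul_comm 2 m, mul_comm 3 n, _root_.zpow_mul, _root_.zpow_mul]
      have h1 : π ^ n ≠ 0 := zpow_ne_zero _ hp
      have h2 : π ^ m ≠ 0 := zpow_ne_zero _ hp
      have e2 : (π ^ m) ^ (2 : ℤ) = (π ^ m) ^ 2 := by norm_cast
      have e3 : (π ^ n) ^ (3 : ℤ) = (π ^ n) ^ 3 := by norm_cast
      rw [e2, e3]
      generalize π ^ n = A at *
      generalize π ^ m = B at *
      field_simp
      linear_combination hy
    rw [e]
    exact ui_div (ui_mul hu1 (ui_pow hun 3)) (ui_pow hum 2)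
  have e2 : 2 * m - 3 * n = 0 := by
    have h1 := zpow_mem_iff hL e1.2.1
    have h3 : π ^ (-(2 * m - 3 * n)) ∈ O := by rw [_root_.zpow_neg]; exact e1.2.2
    have h2 := zpow_mem_iff hL h3
    omega
  obtain ⟨k, hk1, hk2⟩ : ∃ k : ℤ, n = 2 * k ∧ m = 3 * k := ⟨m - n, by omega, by omega⟩
  have hkneg : k ≤ 0 := by
    by_contra hk
    apply hx
    have : x = (x / π ^ n) * π ^ (2 * k).toNat := by
      rw [← zpow_natCast, hk1, Int.toNat_of_nonneg (by omega)]
      have : π ^ (2 * k) ≠ 0 := zpow_ne_zero _ hp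
      field_simp
    rw [this]
    exact O.mul_mem _ _ hn1 (pow_mem hL.pi_mem _)
  have ek : π ^ (-k).toNat = (π ^ k)⁻¹ := by
    rw [← zpow_natCast, Int.toNat_of_nonneg (by omega), _root_.zpow_neg]
  refine ⟨(-k).toNat, ?_, ?_⟩
  · have e : (π ^ (-k).toNat) ^ 2 * x = x / π ^ n := by
      rw [ek, hk1, mul_comm 2 k, _root_.zpow_mul]
      have : π ^ k ≠ 0 := zpow_ne_zero _ hp
      have e2 : (π ^ k) ^ (2 : ℤ) = (π ^ k) ^ 2 := by norm_cast
      rw [e2]
      field_simp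
    rw [e]; exact hun
  · have e : (π ^ (-k).toNat) ^ 3 * y = y / π ^ m := by
      rw [ek, hk2, mul_comm 3 k, _root_.zpow_mul]
      have : π ^ k ≠ 0 := zpow_ne_zero _ hp
      have e2 : (π ^ k) ^ (3 : ℤ) = (π ^ k) ^ 3 := by norm_cast
      rw [e2]
      field_simp
    rw [e]; exact hum

end Local

theorem lto_thm : LTOStmt := by
  intro L _ O π hL B z w hB ha hb hc hcov hw
  have h2 := hL.two.1
  have h2i := hL.two.2
  obtain ⟨g, μ, x, y, hg, hgz, hμw, hBP, hon⟩ := normal h2 hB hcov hw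
  have hμ : μ ≠ 0 := by
    intro h; rw [h] at hμw; simp at hμw
  have hon' : y ^ 2 = x ^ 3 + ia B * x ^ 2 + ib B * x + ic B := hon
  by_cases hx : x ∈ O
  · have hy : y ∈ O := by
      apply mem_of_sq
      rw [hon']
      exact O.add_mem _ _ (O.add_mem _ _ (O.add_mem _ _ (pow_mem hx 3)
        (O.mul_mem _ _ ha (pow_mem hx 2))) (O.mul_mem _ _ hb hx)) hc
    have hax : (ia B + x) / 2 ∈ O := two_mem h2i (O.add_mem _ _ ha hx)
    refine ⟨g, μ, hg.1, hg.2.1, ?_, hμ, hgz, ?_, Or.inl ?_⟩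
    · rw [hBP]
      have e : BP (ia B) (ib B) x y = sy (-1) 0 (-((ia B + x) / 2)) x (-y)
          (ib B + (ia B + x) * x - ((ia B + x) / 2) ^ 2) := by
        ext i j
        have e4 : ((ia B + x) / 2) ^ 2 = (ia B + x) ^ 2 / 4 := by
          rw [div_pow]; norm_num
        rw [e4]
        fin_cases i <;> fin_cases j <;> simp [sy, BP] <;> ring
      rw [e]
      exact mi_sy (O.neg_mem _ O.one_mem) O.zero_mem (O.neg_mem _ hax) hx (O.neg_mem _ hy)
        (O.sub_mem (O.add_mem _ _ hb (O.mul_mem _ _ (O.add_mem _ _ ha hx) hx)) (pow_mem hax 2))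
    · rw [hμw]; exact O.one_mem
    · rw [hμw]
      exact ⟨one_ne_zero, O.one_mem, by rw [inv_one]; exact O.one_mem⟩
  · obtain ⟨j, hu, hv⟩ := val_point hL ha hb hc hon' hx
    set p := π ^ j with hp
    have hp0 : p ≠ 0 := pow_ne_zero _ hL.pi_ne
    have hpm : p ∈ O := pow_mem hL.pi_mem _
    set u := p ^ 2 * x with hud
    set v := p ^ 3 * y with hvd
    have hxu : x = u / p ^ 2 := by rw [hud]; field_simp
    have hyv : y = v / p ^ 3 := by rw [hvd]; field_simp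
    have hrel : v ^ 2 = u ^ 3 + ia B * p ^ 2 * u ^ 2 + ib B * p ^ 4 * u + ic B * p ^ 6 := by
      rw [hud, hvd]
      linear_combination p ^ 6 * hon'
    have hβ := ui_div hv hu
    have hs2 := step2 h2 hp0 hu.1 hrel
    rw [← hxu, ← hyv, ← hBP] at hs2
    have hB1s : (gᵀ * B * g)ᵀ = gᵀ * B * g := symm_conj hB
    have hgg := hg.mul (good_bor h2 hp0 (-(v / u) / p) hB1s)
    set G := g * bor p (-(v / u) / p) with hG
    have hGB : Gᵀ * B * G =
        (bor p (-(v / u) / p))ᵀ * (gᵀ * B * g) * bor p (-(v / u) / p) := by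
      rw [hG, Matrix.transpose_mul]
      simp only [Matrix.mul_assoc]
    have hui := hu.2.2
    have hbu : ib B / u ∈ O := by rw [div_eq_mul_inv]; exact O.mul_mem _ _ hb hui
    have hcu : ic B / u ∈ O := by rw [div_eq_mul_inv]; exact O.mul_mem _ _ hc hui
    have hq : ib B / u + ic B * p ^ 2 / u ^ 2 ∈ O := by
      apply O.add_mem _ _ hbu
      rw [div_eq_mul_inv, ← inv_pow]
      exact O.mul_mem _ _ (O.mul_mem _ _ hc (pow_mem hpm 2)) (pow_mem hui 2)
    have he : ib B * p ^ 2 / u + ic B * p ^ 4 / u ^ 2 ∈ O := by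
      have : ib B * p ^ 2 / u + ic B * p ^ 4 / u ^ 2 =
          p ^ 2 * (ib B / u + ic B * p ^ 2 / u ^ 2) := by
        have := hu.1
        field_simp
      rw [this]
      exact O.mul_mem _ _ (pow_mem hpm 2) hq
    refine ⟨G, μ * p, hgg.1, hgg.2.1, ?_, mul_ne_zero hμ hp0, ?_, ?_, Or.inr ?_⟩
    · rw [hGB, hs2]
      refine mi_sy (O.neg_mem _ (pow_mem hpm 2)) hβ.2.1 (two_mem h2i he)
        (O.neg_mem _ (O.add_mem _ _ ha he)) ?_ ?_
      · exact two_mem h2i (O.mul_mem _ _ (O.neg_mem _ hβ.2.1) hq)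
      · have : -ic B / u = -(ic B / u) := by ring
        rw [this]
        exact O.sub_mem (O.neg_mem _ hcu) (O.mul_mem _ _ (pow_mem hpm 2)
          (pow_mem (two_mem h2i hq) 2))
    · rw [hG, ← Matrix.mulVec_mulVec]
      have : bor p (-(v / u) / p) *ᵥ ![1, 0, 0] = p • ![1, 0, 0] := by
        have := bor_e0 p (-(v / u) / p) 1
        simpa using this
      rw [this, Matrix.mulVec_smul, hgz, smul_smul]
      congr 1
      ring
    · have : μ * p * w = p := by linear_combination p * hμw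
      rw [this]; exact hpm
    · rw [hGB, hs2]
      exact hβ

end Pool.Agent.H70.AVS
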